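import Mathlib
import Pool.Agent.Q304.KU.RK

set_option autoImplicit false

/-!
# The Rudin-Keisler order and the Comfort order on ultrafilters are not isomorphic

In the Comfort order any two elements have a least upper bound (the tensor product). In the
Rudin-Keisler order two incomparable weak P-points (which exist in ZFC) have no least upper bound.
-/

open Set Filter Topology

universe w

namespace Pool.Agent.Results.MP_6ed562_lc.NotIsomorphic

/-- Rudin-Keisler preorder: `u ≤ v` iff `u` is the image of `v` under some `f : ℕ → ℕ`. -/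
def LeRK (u v : Ultrafilter ℕ) : Prop := ∃ f : ℕ → ℕ, v.map f = u

/-- `X` is `u`-compact: every sequence in `X` has a `u`-limit in `X`. -/
def UCompact (u : Ultrafilter ℕ) (X : Type w) [TopologicalSpace X] : Prop :=
  ∀ x : ℕ → X, ∃ y, Tendsto x u (𝓝 y)

/-- Comfort preorder: every `v`-compact Tychonoff space (in the universe `w`) is `u`-compact. -/
def LeC (u v : Ultrafilter ℕ) : Prop :=
  ∀ (X : Type w) [TopologicalSpace X] [T35Space X], UCompact v X → UCompact u X

lemma LeRK.refl (u : Ultrafilter ℕ) : LeRK u u := ⟨id, Ultrafilter.map_id u⟩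

lemma LeRK.trans {u v x : Ultrafilter ℕ} (h : LeRK u v) (h' : LeRK v x) : LeRK u x := by
  obtain ⟨f, hf⟩ := h
  obtain ⟨g, hg⟩ := h'
  refine ⟨f ∘ g, ?_⟩
  rw [← Ultrafilter.map_map, hg, hf]

lemma LeC.trans {u v x : Ultrafilter ℕ} (h : LeC.{w} u v) (h' : LeC.{w} v x) : LeC.{w} u x :=
  fun X _ _ hX => h X (h' X hX)

/-- The equivalence of the Rudin-Keisler preorder. -/
def rkSetoid : Setoid (Ultrafilter ℕ) where
  r u v := LeRK u v ∧ LeRK v u
  iseqv := ⟨fun u => ⟨LeRK.refl u, LeRK.refl u⟩, fun h => ⟨h.2, h.1⟩,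
    fun h h' => ⟨h.1.trans h'.1, h'.2.trans h.2⟩⟩

/-- The equivalence of the Comfort preorder. -/
def cSetoid : Setoid (Ultrafilter ℕ) where
  r u v := LeC.{w} u v ∧ LeC.{w} v u
  iseqv := ⟨fun _ => ⟨fun _ _ _ h => h, fun _ _ _ h => h⟩, fun h => ⟨h.2, h.1⟩,
    fun h h' => ⟨h.1.trans h'.1, h'.2.trans h.2⟩⟩

/-- `x` is a least upper bound of `u` and `v` for the preorder `le`. -/
def IsJoin (le : Ultrafilter ℕ → Ultrafilter ℕ → Prop) (u v x : Ultrafilter ℕ) : Prop :=
  le u x ∧ le v x ∧ ∀ z, le u z → le v z → le x z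

lemma leC_of_leRK {u v : Ultrafilter ℕ} (h : LeRK u v) : LeC.{w} u v := by
  obtain ⟨f, rfl⟩ := h
  intro X _ _ hX x
  obtain ⟨y, hy⟩ := hX (x ∘ f)
  exact ⟨y, hy⟩

open Pool.Agent.Q304.KU in
/-- In the Comfort order the tensor product is a least upper bound. -/
lemma isJoin_tens (u v : Ultrafilter ℕ) : IsJoin LeC.{w} u v (tens u v) := by
  refine ⟨leC_of_leRK ⟨_, tens_map_fst _ _⟩, leC_of_leRK ⟨_, tens_map_snd _ _⟩, ?_⟩
  intro z hz1 hz2 X _ _ hX x
  have hu : UCompact u X := hz1 X hX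
  have hv : UCompact v X := hz2 X hX
  choose y hy using fun n => hv (fun m => x (Nat.pair n m))
  obtain ⟨z', hz'⟩ := hu y
  refine ⟨z', ?_⟩
  rw [tendsto_nhds]
  intro O hO hzO
  change _ ∈ tens u v
  rw [mem_tens]
  have h1 : y ⁻¹' O ∈ u := hz' (hO.mem_nhds hzO)
  refine mem_of_superset h1 ?_
  intro n hn
  exact hy n (hO.mem_nhds hn)

open Pool.Agent.Q304.KU in
/-- In the Rudin-Keisler order some two elements have no least upper bound. -/
lemma exists_no_join : ∃ u v : Ultrafilter ℕ, ∀ x, ¬ IsJoin LeRK u v x := by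
  obtain ⟨U, V, hU, hV, h1, h2⟩ := exists_pair
  refine ⟨U, V, fun x hx => ?_⟩
  exact no_join hU hV h1 h2 x hx.1 hx.2.1 hx.2.2

/-- (1) In the Comfort order any two ultrafilters have a least upper bound. (2) In the
Rudin-Keisler order some two ultrafilters have none. (3) The two associated partial orders are not
isomorphic: no bijection `Φ` between the quotients satisfies `[u] ≤ [v] ↔ Φ [u] ≤ Φ [v]`. -/
theorem result :
    (∀ u v : Ultrafilter ℕ, ∃ x, IsJoin LeC.{w} u v x) ∧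
    (∃ u v : Ultrafilter ℕ, ∀ x, ¬ IsJoin LeRK u v x) ∧
    ¬ ∃ Φ : Quotient rkSetoid ≃ Quotient cSetoid.{w}, ∀ u v u' v' : Ultrafilter ℕ,
      Φ (Quotient.mk _ u) = Quotient.mk _ u' → Φ (Quotient.mk _ v) = Quotient.mk _ v' →
        (LeRK u v ↔ LeC.{w} u' v') := by
  refine ⟨fun u v => ⟨_, isJoin_tens u v⟩, exists_no_join, ?_⟩
  rintro ⟨Φ, hΦ⟩
  obtain ⟨u, v, huv⟩ := exists_no_join
  obtain ⟨u', hu'⟩ := Quotient.exists_rep (Φ (Quotient.mk _ u))
  obtain ⟨v', hv'⟩ := Quotient.exists_rep (Φ (Quotient.mk _ v))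
  obtain ⟨x, hx⟩ := Quotient.exists_rep (Φ.symm (Quotient.mk _ (Pool.Agent.Q304.KU.tens u' v')))
  have hx' : Φ (Quotient.mk _ x) = Quotient.mk _ (Pool.Agent.Q304.KU.tens u' v') := by
    rw [hx, Equiv.apply_symm_apply]
  have hj := isJoin_tens.{w} u' v'
  refine huv x ⟨?_, ?_, ?_⟩
  · exact (hΦ u x u' _ hu'.symm hx').2 hj.1
  · exact (hΦ v x v' _ hv'.symm hx').2 hj.2.1
  · intro z h1 h2
    obtain ⟨z', hz'⟩ := Quotient.exists_rep (Φ (Quotient.mk _ z))
    have a1 := (hΦ u z u' z' hu'.symm hz'.symm).1 h1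
    have a2 := (hΦ v z v' z' hv'.symm hz'.symm).1 h2
    exact (hΦ x z _ z' hx' hz'.symm).2 (hj.2.2 z' a1 a2)

end Pool.Agent.Results.MP_6ed562_lc.NotIsomorphic
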